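import Pool.Agent.U191.FK.Mur

/-!
# Murre's conjecture (B) for quotients of products of curves

`𝒱` is a class of smooth projective geometrically irreducible varieties over the field `k ⊆ ℂ` closed
under products (for the problem: all of them, over `ℂ`), `C` the Chow groups with rational
coefficients, `H` a Weil cohomology theory with complex coefficients and `D` the Hodge decompositions
(singular cohomology).

Let `X = C_1 × ⋯ × C_n × B`, where `B` has dimension zero and the `C_i` are curves with actions of
finite groups `G_i`, all irreducible characters of which have values in a number field `K` which is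
totally real (for example symmetric and dihedral groups, and all other groups whose elements are
conjugate to their inverses), or imaginary quadratic, or a CM field of degree four. A pair `(V, e)` of
level at most `ℓ` is one of the following: `(X, e)` with `e = ∑ a(γ) [γ]`, where `a` is an element of
the rational group algebra of `G_1 × ⋯ × G_n` which is zero on `H^{p,q}(X)` for `|p - q| > ℓ`; or
`(Y, Δ)`, where `Y` is a quotient of `X`, or a direct summand cut out by an element of the group
algebra, of Hodge level at most `ℓ`.

**Theorem.** Let `π` be any Chow-Kunneth decomposition of the variety in question, and `F` the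
filtration of its Chow groups attached to `π`.

(1) Let `Z` be a variety whose motive is built from motives of level at most four. Then
`F^0 CH^j(Z) = CH^j(Z)` for all `j`.

(2) Let `Y` be a quotient of `X`, or a direct summand of the same dimension which is cut out by an
element of the group algebra, such that `H^{p,q}(Y) = 0` if `|p - q| > 4` and `min (p, q) < c`. Then
`F^0 CH^j(Y) = CH^j(Y)` for `dim Y - j ≤ c + 2`.

(3) `F^(j + 1) CH^j(Z) = 0` for all `j` and all varieties `Z` which are built from products of curves
with twists by nonnegative integers, for example for the varieties `Y` in (1) and (2) (without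
conditions on the Hodge numbers). So (B) is true for all these varieties in (1), and in (2) in the
dimensions at most `c + 2`.

Products of at most four curves satisfy (B) by the results of `MP_d6e134_ag.SymmetricFourfolds`; the
case `c = 0` of (2) for `Y = X` is also contained there.
-/

set_option autoImplicit false

open CategoryTheory AlgebraicGeometry

universe u v

namespace Pool.Agent.Results.MP_d6e134_ag.CurveQuotients

open Pool.Agent.H914 Pool.Agent.H914.VarClass Pool.Agent.H914.VarClass.Obj Pool.Agent.W492.BB
  Pool.Agent.TH133 Pool.Agent.U191.EY Pool.Agent.U191.FL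

/-- **Murre's conjecture (B)** for varieties built from products of curves with actions of finite
groups. -/
theorem result {k : Type u} [Field k] {𝒱 : VarClass k} {C : TheoryData.{u, v, 0} 𝒱 ℚ}
    [IsChowProj C] {H : WeilTheoryData.{u, v, 0} C ℂ} [IsWeilProj H]
    {D : ∀ V : 𝒱.Obj, HodgeRing (H.A V)} (hD : IsHodgeTheory H D) (hN : KimuraNilpotence H)
    (hP : PicardTheorem H) :
    (∀ Z : 𝒱.Obj, IsBuiltOfLevel H D 4 (gph C (𝟙 Z)) → ∀ π : ℕ → C.A (Z.prod Z),
        IsChowKunneth H π → ∀ j : ℕ, FirstHalf C π j) ∧
      (∀ Z : 𝒱.Obj, IsBuiltFromCurves C {n : ℤ | 0 ≤ n} Z → ∀ π : ℕ → C.A (Z.prod Z),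
        IsChowKunneth H π → ∀ j : ℕ, SecondHalf C π j) ∧
      ∀ (B : 𝒱.Obj) (L : List (GCurve 𝒱)) (Y : 𝒱.Obj), B.dim = 0 → AreGood H D L → IsCut C B L Y →
        IsBuiltFromCurves C {n : ℤ | 0 ≤ n} Y ∧
          ∀ c : ℕ, Y.dim = (prodL B L).dim → HasLevel (D Y) 4 c → ∀ π : ℕ → C.A (Y.prod Y),
            IsChowKunneth H π → ∀ j : ℕ, Y.dim ≤ j + c + 2 → FirstHalf C π j :=
  ⟨fun _ hZ _ hπ j => firstHalf_of_level hD hN hP hZ hπ j,
    fun _ hZ _ hπ _ => secondHalf_of_built hN hZ hπ,
    fun _ _ _ hB hL hY => ⟨built_of_cut hB hL hY (le_refl (0 : ℤ)),
      fun _ hdim hl _ hπ _ hj => firstHalf_of_mixed hD hN hP hB hL hY hdim hl hπ hj⟩⟩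

end Pool.Agent.Results.MP_d6e134_ag.CurveQuotients
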