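import Pool.Agent.U435.SP.Mur3

/-!
# Murre's conjecture (B) over `ℂ` and over `ℚ`

`M` are the geometric motives over a field `k` (for instance `ℚ`) with a realisation, `N` those
over an extension `K` of `k` (for instance `ℂ`), `G` the degrees and weights of the realisations,
`D` and `A` further known facts. Voevodsky's conjecture and Murre's conjecture (B) (both parts,
`F⁰ = CH` and `F^(i+1) CH^i = 0`) hold for all Chow motives over `K` if and only if they hold over
`k`.
-/

set_option autoImplicit false

open CategoryTheory MonoidalCategory

namespace Pool.Agent.Results.MP_d6e134_ag.ReductionToPrimeField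

open Pool.Agent.U435.SP

universe v u v' u' w

theorem result {E : Type w} [Field E] [CharZero E] {T : Coefficients.{v', u', w} E}
    {M : BaseMotives.{v, u} T} (N : ExtensionMotives M) (G : Degrees N) (D : KunnethData N G)
    (A : CodimData N G) :
    (Voevodsky N.Chow ∧ MurreB G.h N.F N.Chow ∧ MurreTop G.h N.F A.cycExt) ↔
      (Voevodsky M.Chow ∧ MurreB G.h M.F M.Chow ∧ MurreTop G.h M.F A.cyc) :=
  murreB_full D A

end Pool.Agent.Results.MP_d6e134_ag.ReductionToPrimeField
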