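import Pool.Agent.U926.SF.Mur

/-!
# Murre's conjecture (B) for hypersurfaces `g_0 + ⋯ + g_r = 0`

Let `k` be an algebraically closed field of characteristic zero (for instance `ℂ`), and let
`g_0, …, g_r` be nonsingular forms of degree `d ≥ 2` in separate sets of variables, each in at most two
variables, or (if `d = 3`) in at most five variables. Let `X` be the hypersurface
`g_0(x^(0)) + g_1(x^(1)) + ⋯ + g_r(x^(r)) = 0` and `n` its dimension. There is no restriction on the
number of the forms, so `n` is arbitrary. Let `π` be any Chow-Kuenneth decomposition of `X`, and `F` its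
filtration.

**Theorem.** (1) `F^(j+1) CH^j(X) = 0` for all `j`, and `F^0 CH^j(X) = CH^j(X)` for `2 j ≥ n`. If
`2 j > n`, then `F^i CH^j(X)` is the group of homologically trivial cycles for `1 ≤ i ≤ 2 j - n`, and
zero for `i > 2 j - n`. So the filtration of `CH^j(X)`, `2 j > n`, does not depend on `π`.
(2) For `2 j < n` the equality `F^0 CH^j(X) = CH^j(X)` holds if and only if `CH^j(X) = ℚ h ^ j`, `h` the
class of a hyperplane section. So conjecture (B) for `X` is equivalent to `CH^j(X) = ℚ h ^ j` for all
`j < n / 2`, and if it holds for one Chow-Kuenneth decomposition then for all.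
(3) If `n ≤ 4`, then conjecture (B) holds for `X` and all its Chow-Kuenneth decompositions.

In higher dimensions `MP_4be043_ag.SeparatedForms` gives the condition in (2) in many cases: for
`j ≤ c + 1`, `c` depending on the form (for example for the Fermat cubics of dimension at most 12).

The setting: `𝒱` is a class of smooth projective varieties over `k` closed under products, `C` the Chow
groups with rational coefficients (`IsChowProj`), `H` a Weil cohomology (`IsWeilProj`), in the form
of their formal properties; `T.V F` is the hypersurface `F = 0` and `T.h F` the class of a hyperplane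
section. The known theorems which are used:

* `hT`, the theorem of Katsura and Shioda: `f(x) + g(y) = 0` is dominated by the product of
  `f(x) + z ^ d = 0` and `g(y) + w ^ d = 0`, blown up in the product of `f(x) = 0` and `g(y) = 0`;
* `hP`: degree of the hyperplane class and the Lefschetz theorem;
* `hK`: the motives of cubic surfaces and cubic threefolds are direct summands of sums of Tate twists of
  motives of curves;
* `hK'`: the cubic fourfolds `f(x_0, …, x_4) + z ^ 3 = 0` have motives of abelian type (Laterveer, van
  Geemen and Izadi);
* `hN`: Kimura's theorem that homologically trivial self-correspondences of degree zero of varieties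
  built from products of curves are nilpotent;
* in (3), `hD`: the theorem of Lefschetz on divisors.

The proof: all hypersurfaces `X` are built from products of curves, so homologically trivial
self-correspondences are nilpotent. If `i = 2 m ≠ n`, then `π_i` and the projector
`(1/d) h^(n-m) × h^m` differ by a nilpotent correspondence, which acts as the identity on `π_i CH^j(X)`
for `j ≠ m`; if `i ≠ n` is odd, then `π_i` is nilpotent. So only `π_n` and `π_(2j)` act on `CH^j(X)`.
-/

universe u v w

namespace Pool.Agent.Results.MP_d6e134_ag.SumsOfForms

open Pool.Agent.H914 Pool.Agent.W492.BB Pool.Agent.TH133 Pool.Agent.U926.HC Pool.Agent.U926.SF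

/-- **Murre's conjecture (B)** for the hypersurfaces `g_0 + ⋯ + g_r = 0` with equations in separate sets
of variables: the second half is true; the first half is true in the codimensions at least `n / 2`,
where the filtration is determined, and equivalent to the triviality of the Chow groups below. -/
theorem result {k : Type u} [Field k] [IsAlgClosed k] [CharZero k] {𝒱 : VarClass k}
    {C : TheoryData.{u, v, 0} 𝒱 ℚ} [IsChowProj C] {K : Type w} [Field K]
    {H : WeilTheoryData.{u, v, w} C K} [IsWeilProj H] (T : HypersurfaceData C)
    (hT : ∀ d : ℕ, 2 ≤ d → IsKatsuraShioda C (hyp T) d)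
    (hP : ∀ d : ℕ, 2 ≤ d → IsProjectiveTheory H T d) (hK : CubicsHaveCurveMotives C (hyp T))
    (hK' : CyclicFourfoldsHaveCurveMotives C (hyp T)) (hN : KimuraNilpotence H)
    (hD : ∀ d : ℕ, 2 ≤ d → DivisorTheorem T d)
    (d : ℕ) (hd : 2 ≤ d) (r : ℕ) (σ : Fin (r + 1) → Type) (g : ∀ l, MvPolynomial (σ l) k)
    (hg : HasBlocks d (blockVars d) g)
    (π : ℕ → C.A ((T.V (sumForms g)).prod (T.V (sumForms g))))
    (hπ : IsChowKunneth H (T.V (sumForms g)) π) (j : ℕ) :
    SecondHalf C π j ∧ ((T.V (sumForms g)).dim ≤ 2 * j → FirstHalf C π j) ∧
    ((T.V (sumForms g)).dim < 2 * j → HasTwoSteps H π j) ∧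
    (2 * j < (T.V (sumForms g)).dim → (FirstHalf C π j ↔ IsGenerated T (sumForms g) j)) ∧
    (j ≤ 1 ∨ (T.V (sumForms g)).dim ≤ 4 → FirstHalf C π j) :=
  murre_sumForms hT hP hK hK' hN hD hd g hg π hπ j

end Pool.Agent.Results.MP_d6e134_ag.SumsOfForms
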