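import Pool.Agent.U840.SY.B

/-!
# Murre's conjecture (B) for symmetric Chow-Kunneth decompositions

`𝒱` is a class of smooth projective geometrically irreducible varieties over the field `k` closed
under products (for example all of them), `C` the Chow groups with rational coefficients (in the
form of their formal properties, `IsChowProj`), `H` a Weil cohomology theory (`IsWeilProj`), with the
classical fact that correspondences acting as zero on `H^1` act as zero on `Pic^0 ⊗ ℚ`
(`PicardFaithful`). A Chow-Kunneth decomposition `h(X) = ⊕ h^i(X)`, `n = dim X`, is symmetric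
(`IsSymmetric`) if there are isomorphisms of Chow motives `h^i(X) ≃ h^(2 n - i)(X)(n - i)`.

**Theorem.** (1) Let the decomposition of `X`, `dim X = n`, be symmetric. Then the second half of (B),
`F^(j + 1) CH^j(X) = 0`, is true for all `j`, in every dimension. The first half, `F^0 CH^j(X) = CH^j(X)`, is
true for all `j` if `n ≤ 4` (so (B) is true), and in all dimensions for `j = 0, 1, n - 2, n - 1, n`. If it is
true in the codimensions at most `m`, then in the codimensions at least `n - m - 1`. In general `F^0 CH^j(X) = CH^j(X)`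
is implied by finitely many conditions on the codimensions `j' ≤ min (j, n - j - 1)`: the projectors `π i`,
`2 j' < i ≤ n`, act as zero on `CH^j'(X)`. (For `n = 5` the only condition is that `π 5` acts as zero on
`CH^2(X)`.)

(2) If the homologically trivial self-correspondences of `X` of degree zero are nilpotent, for instance if `X` is
finite-dimensional in the sense of Kimura, and `X` has a symmetric Chow-Kunneth decomposition, then all
this is true for all Chow-Kunneth decompositions of `X`; and in general `F^0 CH^j(X) = CH^j(X)` for one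
Chow-Kunneth decomposition implies the same for all.

(3) All members of the class `Generated` have symmetric Chow-Kunneth decompositions: it contains curves, the
varieties with a Chow-Kunneth decomposition satisfying motivic hard Lefschetz (abelian varieties), the
Lefschetz sections and covers of those with motivic hard Lefschetz for a divisor class (smooth complete
intersections and cyclic covers of abelian varieties of every dimension), and is closed under products, projective
bundles and blow-ups of members along members.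
-/

set_option autoImplicit false

open CategoryTheory AlgebraicGeometry

universe u v w

namespace Pool.Agent.Results.MP_d6e134_ag.SymmetricFourfolds

open Pool.Agent.H914 Pool.Agent.W492.BB Pool.Agent.TH133 Pool.Agent.Y107 Pool.Agent.Q73.LS
  Pool.Agent.U840.SY

theorem result {k : Type u} [Field k] {𝒱 : VarClass k} (C : TheoryData.{u, v, 0} 𝒱 ℚ)
    [IsChowProj C] {K : Type w} [Field K] (H : WeilTheoryData.{u, v, w} C K) [IsWeilProj H]
    (hP : PicardFaithful H) :
    -- (1) symmetric decompositions
    (∀ (X : 𝒱.Obj) (π w : ℕ → C.A (X.prod X)), IsCK H X π → IsSymmetric C π w →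
      (∀ j : ℕ, B1In C π j) ∧
      (∀ j : ℕ, X.dim ≤ 4 ∨ j ≤ 1 ∨ X.dim ≤ j + 2 → B0In C π j) ∧
      (∀ m : ℕ, (∀ j : ℕ, 2 ≤ j → j ≤ m → B0In C π j) →
        ∀ j : ℕ, X.dim ≤ j + m + 1 → B0In C π j) ∧
      ∀ j : ℕ, (∀ j' i : ℕ, 2 ≤ j' → j' ≤ j → j + j' < X.dim → 2 * j' < i → i ≤ X.dim →
        ∀ x : C.A X, C.Deg j' x → C.act (π i) x = 0) → B0In C π j) ∧
    -- (2) all decompositions
    (∀ X : 𝒱.Obj, HomNilpotent H X → HasSymmetricCK H X →
      ∀ π : ℕ → C.A (X.prod X), IsCK H X π →
        (∀ j : ℕ, B1In C π j) ∧
        (∀ j : ℕ, X.dim ≤ 4 ∨ j ≤ 1 ∨ X.dim ≤ j + 2 → B0In C π j) ∧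
        ∀ π' : ℕ → C.A (X.prod X), IsCK H X π' → ∀ j : ℕ, B0In C π j → B0In C π' j) ∧
    -- (3) the class of varieties with symmetric decompositions
    (∀ X : 𝒱.Obj, Generated H X → HasSymmetricCK H X) := by
  have h0 : ∀ (X : 𝒱.Obj) (π w : ℕ → C.A (X.prod X)), IsCK H X π → IsSymmetric C π w →
      ∀ j : ℕ, X.dim ≤ 4 ∨ j ≤ 1 ∨ X.dim ≤ j + 2 → B0In C π j := by
    intro X π w hπ hs j hj
    by_cases hj1 : j ≤ 1
    · exact b0In_low hP hπ hj1
    · exact b0In_dual hP hπ hs 1 (fun j' h2 h3 => absurd h3 (by omega)) j (by omega)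
  refine ⟨fun X π w hπ hs => ⟨b1In_of_symmetric hπ hs, h0 X π w hπ hs,
    fun m hm j hj => b0In_dual hP hπ hs m hm j hj,
    fun j hj => b0In_of_symmetric hP hπ hs j hj⟩, ?_, fun X hX => hX.hasSymmetricCK⟩
  rintro X hX ⟨π, w, hπ, hs⟩ π' hπ'
  exact ⟨fun j => b1In_congr hX hπ hπ' (b1In_of_symmetric hπ hs j),
    fun j hj => b0In_congr hX hπ hπ' (h0 X π w hπ hs j hj),
    fun π'' hπ'' j hj => b0In_congr hX hπ' hπ'' hj⟩

end Pool.Agent.Results.MP_d6e134_ag.SymmetricFourfolds
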